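import Pool.Agent.H88.L.W476.TP.Stm

/-!
# Project TP: common zeros of multihomogeneous forms
-/

set_option autoImplicit false

namespace Pool.Agent.W762.TP

open MvPolynomial Pool.Agent.W476.TP

/-- A linear functional on the `κ`-th group of coordinates. -/
noncomputable def phi {L : Type} [Field L] {r : ℕ} (m : Fin r → ℕ) {κ κ' : Fin r}
    (l : Fin (m κ + 1) → L) (h : κ = κ') : (Fin (m κ' + 1) → L) →ₗ[L] L := by
  subst h
  exact ∑ i, l i • LinearMap.proj i

theorem phi_rfl {L : Type} [Field L] {r : ℕ} (m : Fin r → ℕ) {κ : Fin r}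
    (l : Fin (m κ + 1) → L) (v : Fin (m κ + 1) → L) : phi m l rfl v = ∑ i, l i * v i := by
  change (∑ i, l i • (LinearMap.proj i : (Fin (m κ + 1) → L) →ₗ[L] L)) v = _
  rw [LinearMap.sum_apply]
  rfl

theorem lin_hom {L : Type} [Field L] {r n : ℕ} (m : Fin r → ℕ) (D : Fin r → ℕ) {κ : Fin r}
    (l : Fin (m κ + 1) → L) : IsWeightedHomogeneous (wt2 m D n)
      (∑ i, C (l i) * X (Sum.inl ⟨κ, i⟩) : MvPolynomial (Sig m ⊕ Fin (n + 1)) L)
      (Pi.single κ 1) := by
  refine IsWeightedHomogeneous.sum _ _ _ fun i _ => ?_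
  have h := (isWeightedHomogeneous_C (wt2 m D n) (l i)).mul
    (isWeightedHomogeneous_X L (wt2 m D n) (Sum.inl ⟨κ, i⟩))
  have e : 0 + wt2 m D n (Sum.inl ⟨κ, i⟩) = Pi.single κ 1 := by
    rw [zero_add]
    rfl
  rwa [e] at h

theorem lin_eval {L : Type} [Field L] {r n : ℕ} (m : Fin r → ℕ) {κ : Fin r}
    (l : Fin (m κ + 1) → L) (y : Sig m → L) (z : Fin (n + 1) → L) :
    eval (Sum.elim y z) (∑ i, C (l i) * X (Sum.inl ⟨κ, i⟩) :
      MvPolynomial (Sig m ⊕ Fin (n + 1)) L) = ∑ i, l i * y ⟨κ, i⟩ := by
  rw [map_sum]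
  refine Finset.sum_congr rfl fun i _ => ?_
  rw [map_mul, eval_C, eval_X, Sum.elim_inl]

theorem t_EXC (hK : S_KEY) : S_EXC := by
  classical
  intro L _ _ r n m D hD G t hG J _ _ F δ hF τ hτ hcard
  have key : ∀ A : Finset J, ∀ l : (j : J) → Fin (m (τ j) + 1) → L,
      ∃ (y : Sig m → L) (z : Fin (n + 1) → L), Rel y ∧ (∀ i, ev (G i) y (z i) = 0) ∧
        (∀ j ∈ A, eval (Sum.elim y z) (F j) = 0) ∧
        ∀ j, j ∉ A → ∑ i, l j i * y ⟨τ j, i⟩ = 0 := by
    intro A
    induction A using Finset.induction_on with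
    | empty =>
      intro l
      have h1 : ∀ κ : Fin r, ∃ v : Fin (m κ + 1) → L, v ≠ 0 ∧
          ∀ (j : J) (h : τ j = κ), phi m (l j) h v = 0 := by
        intro κ
        let Φ : (Fin (m κ + 1) → L) →ₗ[L] ({j : J // τ j = κ} → L) :=
          LinearMap.pi fun j => phi m (l j.1) j.2
        have h2 : LinearMap.ker Φ ≠ ⊥ := by
          apply LinearMap.ker_ne_bot_of_finrank_lt
          rw [Module.finrank_fintype_fun_eq_card, Module.finrank_fin_fun,
            Fintype.card_subtype]
          have := hcard κ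
          omega
        obtain ⟨v, hv, hv0⟩ := Submodule.exists_mem_ne_zero_of_ne_bot h2
        refine ⟨v, hv0, fun j h => ?_⟩
        have h3 : Φ v = 0 := hv
        exact congrFun h3 ⟨j, h⟩
      choose v hv0 hv using h1
      let y : Sig m → L := fun s => v s.1 s.2
      have hz : ∀ i, ∃ z : L, ev (G i) y z = 0 := by
        intro i
        obtain ⟨ht, hmon, hdeg, _⟩ := hG i
        have h4 : ((G i).map (eval y)).natDegree = t i := by
          rw [hmon.natDegree_map, hdeg]
        have h5 : ((G i).map (eval y)).degree ≠ 0 := by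
          have h6 : 0 < ((G i).map (eval y)).degree :=
            Polynomial.natDegree_pos_iff_degree_pos.1 (by rw [h4]; exact ht)
          exact h6.ne'
        obtain ⟨z, hz⟩ := IsAlgClosed.exists_root _ h5
        exact ⟨z, hz⟩
      choose z hz using hz
      refine ⟨y, z, ?_, hz, ?_, ?_⟩
      · intro κ
        by_contra hcon
        push Not at hcon
        exact hv0 κ (funext fun i => hcon i)
      · intro j hj
        exact absurd hj (Finset.notMem_empty j)
      · intro j _
        have := hv (τ j) j rfl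
        rw [phi_rfl] at this
        exact this
    | insert j0 A hj0 ih =>
      intro l
      let F' : {j : J // j ≠ j0} → MvPolynomial (Sig m ⊕ Fin (n + 1)) L := fun j =>
        if j.1 ∈ A then F j.1 else ∑ i, C (l j.1 i) * X (Sum.inl ⟨τ j.1, i⟩)
      let δ' : {j : J // j ≠ j0} → Fin r → ℕ := fun j =>
        if j.1 ∈ A then δ j.1 else Pi.single (τ j.1) 1
      have hF' : ∀ j, IsWeightedHomogeneous (wt2 m D n) (F' j) (δ' j) := by
        intro j
        by_cases h : j.1 ∈ A
        · simp only [F', δ', if_pos h]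
          exact hF j.1
        · simp only [F', δ', if_neg h]
          exact lin_hom m D (l j.1)
      obtain ⟨y, z, h1, h2, h3, h4⟩ := hK L m D hD G t hG {j : J // j ≠ j0} F' δ' hF' (τ j0)
        (by
          intro l0
          obtain ⟨y, z, h1, h2, h3, h4⟩ := ih (Function.update l j0 l0)
          refine ⟨y, z, h1, h2, ?_, ?_⟩
          · intro j
            by_cases h : j.1 ∈ A
            · simp only [F', if_pos h]
              exact h3 j.1 h
            · simp only [F', if_neg h]
              rw [lin_eval]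
              have h5 := h4 j.1 h
              rwa [Function.update_of_ne j.2] at h5
          · have h5 := h4 j0 hj0
            rwa [Function.update_self] at h5)
        (F j0) (δ j0) (hF j0) (hτ j0)
      refine ⟨y, z, h1, h2, ?_, ?_⟩
      · intro j hj
        by_cases h : j = j0
        · rw [h]; exact h4
        · have hjA : j ∈ A := Finset.mem_of_mem_insert_of_ne hj h
          have h5 := h3 ⟨j, h⟩
          simp only [F', if_pos hjA] at h5
          exact h5
      · intro j hj
        rw [Finset.mem_insert, not_or] at hj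
        have h5 := h3 ⟨j, hj.1⟩
        simp only [F', if_neg hj.2] at h5
        rwa [lin_eval] at h5
  obtain ⟨y, z, h1, h2, h3, _⟩ := key Finset.univ (fun _ _ => 0)
  exact ⟨y, z, h1, h2, fun j => h3 j (Finset.mem_univ j)⟩

end Pool.Agent.W762.TP
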